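import Pool.Agent.ETSC.Base

/-!
# Sign coherence (helper72, note 3133), part 2: Theorem C, helper24

A minimal closed subspace `E` of dimension at least two is the image of a perfect atom.
-/

set_option autoImplicit false
set_option linter.unusedSectionVars false
set_option linter.unusedSimpArgs false
set_option linter.unnecessarySeqFocus false

namespace Pool.Agent.ETSC

open QS
open Pool.Agent.Helper58.PLine (QData)
open Pool.Agent.ETCP

variable {V Q : Type} [AddCommGroup V] [Module (ZMod 2) V] {S : QData V Q}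

/-- the closure of `β` -/
def Ec (S : QData V Q) (β : Dl V) : Submodule (ZMod 2) (Dl V) where
  carrier := {μ | ∀ ρ ∈ R S, (∃ x, ρ x = β) → ∃ y, ρ y = μ}
  add_mem' := by
    intro a b ha hb ρ hρ h
    obtain ⟨x, hx⟩ := ha ρ hρ h
    obtain ⟨y, hy⟩ := hb ρ hρ h
    exact ⟨x + y, by rw [map_add, hx, hy]⟩
  zero_mem' := fun ρ _ _ => ⟨0, map_zero ρ⟩
  smul_mem' := by
    intro c a ha ρ hρ h
    obtain ⟨x, hx⟩ := ha ρ hρ h
    exact ⟨c • x, by rw [map_smul, hx]⟩

theorem self_mem (β : Dl V) : β ∈ Ec S β := fun _ _ h => h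

theorem add_self' {M : Type} [AddCommGroup M] [Module (ZMod 2) M] (a b : M) : a + b + b = a := by
  rw [add_assoc, ZModModule.add_self, add_zero]

/-- functionals of the closure are constant on `P_β` -/
theorem mem_const [Finite V] (he : S.e = 0) (hE : Emb S) {β μ : Dl V} (hμ : μ ∈ Ec S β)
    {x y : V} (hx : PP S β x) (hy : PP S β y) : μ (x + y) = 0 := by
  obtain ⟨ρ, hρ, h1, h2⟩ := ext2 hE hx hy (by
    have e : β + β = 0 := ZModModule.add_self β
    rw [e]
    exact PP_zero _)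
  obtain ⟨z, hz⟩ := hμ ρ hρ ⟨x, h1⟩
  rw [← hz, R_symm he hρ, map_add, h1, h2, ZModModule.add_self, LinearMap.zero_apply]

/-- functionals constant on `P_β` are in the closure -/
theorem const_mem [Finite V] (he : S.e = 0) {β μ : Dl V}
    (h : ∀ x y, PP S β x → PP S β y → μ (x + y) = 0) : μ ∈ Ec S β := by
  have hfin : Module.Finite (ZMod 2) V := Module.Finite.of_finite
  rintro ρ hρ ⟨x, hx⟩
  by_contra hn
  have h1 : μ ∉ LinearMap.range ρ := by
    rintro ⟨y, hy⟩
    exact hn ⟨y, hy⟩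
  obtain ⟨d, hd, hd1⟩ := dsep _ h1
  have h2 : ρ d = 0 := by
    apply LinearMap.ext
    intro z
    rw [R_symm he hρ]
    exact hd _ ⟨z, rfl⟩
  have h3 := h x (x + d) (PP_of hρ hx) (PP_of hρ (by rw [map_add, h2, add_zero, hx]))
  rw [← add_assoc, ZModModule.add_self, zero_add, hd1] at h3
  exact one_ne_zero h3

/-- minimal closed subspaces -/
def MinE (S : QData V Q) (E : Submodule (ZMod 2) (Dl V)) : Prop :=
  ∀ β ∈ E, β ≠ 0 → Ec S β = E

theorem Ec_le {β γ : Dl V} (h : γ ∈ Ec S β) : Ec S γ ≤ Ec S β :=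
  fun _ hμ ρ hρ hx => hμ ρ hρ (h ρ hρ hx)

theorem MinE.fe {E : Submodule (ZMod 2) (Dl V)} (hE : MinE S E) {β γ : Dl V} (hβ : β ∈ E)
    (hβ0 : β ≠ 0) (hγ : γ ∈ E) (hγ0 : γ ≠ 0) : FE S β γ := by
  intro ρ hρ
  constructor
  · intro h
    exact (show γ ∈ Ec S β from (hE β hβ hβ0).symm ▸ hγ) ρ hρ h
  · intro h
    exact (show β ∈ Ec S γ from (hE γ hγ hγ0).symm ▸ hβ) ρ hρ h

/-- every closure contains a minimal closed subspace -/
theorem exists_min [Finite V] {β : Dl V} (hβ : β ≠ 0) :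
    ∃ γ, γ ≠ 0 ∧ γ ∈ Ec S β ∧ MinE S (Ec S γ) := by
  classical
  have hfin : Module.Finite (ZMod 2) V := Module.Finite.of_finite
  have key : ∀ (n : ℕ) (β : Dl V), β ≠ 0 → Module.finrank (ZMod 2) (Ec S β) = n →
      ∃ γ, γ ≠ 0 ∧ γ ∈ Ec S β ∧ MinE S (Ec S γ) := by
    intro n
    induction n using Nat.strong_induction_on with
    | _ n ih =>
      intro β hβ hn
      by_cases hm : MinE S (Ec S β)
      · exact ⟨β, hβ, self_mem β, hm⟩
      · unfold MinE at hm
        push Not at hm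
        obtain ⟨γ, h1, h2, h3⟩ := hm
        have hlt : Ec S γ < Ec S β := lt_of_le_of_ne (Ec_le h1) h3
        obtain ⟨δ, h4, h5, h6⟩ := ih _ (hn ▸ Submodule.finrank_lt_finrank_of_lt hlt) γ h2 rfl
        exact ⟨δ, h4, Ec_le h1 h5, h6⟩
  exact key _ β hβ rfl

/-- the annihilator of `E` -/
abbrev An (E : Submodule (ZMod 2) (Dl V)) : Submodule (ZMod 2) V := E.dualCoannihilator

theorem mem_An {E : Submodule (ZMod 2) (Dl V)} {d : V} : d ∈ An E ↔ ∀ μ ∈ E, μ d = 0 :=
  Submodule.mem_dualCoannihilator d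

section thmC

variable [Finite V] (he : S.e = 0) (hS : Emb S) {E : Submodule (ZMod 2) (Dl V)} (hE : MinE S E)

include he hS hE

omit he in
theorem clA {β γ : Dl V} (hβ : β ∈ E) (hβ0 : β ≠ 0) (hγ : γ ∈ E) (hγ0 : γ ≠ 0) (hne : β ≠ γ)
    {x y y' : V} (hx : PP S β x) (hy : PP S γ y) (hy' : PP S γ y') : PP S β (x + (y + y')) := by
  have hs : β + γ ≠ 0 := fun h => hne (eo h)
  have h1 := key hS (hE.fe hβ hβ0 hγ hγ0) hx hy
  have h2 := key hS (hE.fe (E.add_mem hβ hγ) hs hγ hγ0) h1 hy'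
  rw [add_self', add_assoc] at h2
  exact h2

theorem clC {β : Dl V} (hβ : β ∈ E) (hβ0 : β ≠ 0) {x y : V} (hx : PP S β x) (hy : PP S β y) :
    x + y ∈ An E :=
  mem_An.2 fun μ hμ => mem_const he hS (by rw [hE β hβ hβ0]; exact hμ) hx hy

theorem clB (h4 : ∀ β ∈ E, β ≠ 0 → ∃ γ ∈ E, γ ≠ 0 ∧ β ≠ γ) {β : Dl V} (hβ : β ∈ E)
    (hβ0 : β ≠ 0) {x d : V} (hx : PP S β x) (hd : d ∈ An E) : PP S β (x + d) := by
  obtain ⟨γ, hγ, hγ0, hne⟩ := h4 β hβ hβ0
  let T : Submodule (ZMod 2) V :=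
    { carrier := {t | ∀ x, PP S β x → PP S β (x + t)}
      add_mem' := by
        intro a b ha hb x hx
        rw [← add_assoc]
        exact hb _ (ha _ hx)
      zero_mem' := by
        intro x hx
        rwa [add_zero]
      smul_mem' := by
        intro c a ha x hx
        rcases z2 c with rfl | rfl
        · rw [zero_smul, add_zero]
          exact hx
        · rw [one_smul]
          exact ha x hx }
  have hT : Submodule.span (ZMod 2) {t | ∃ y y', PP S γ y ∧ PP S γ y' ∧ t = y + y'} ≤ T := by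
    rw [Submodule.span_le]
    rintro t ⟨y, y', h1, h2, rfl⟩ x hx
    exact clA hS hE hβ hβ0 hγ hγ0 hne hx h1 h2
  have hd' : d ∈ Submodule.span (ZMod 2) {t | ∃ y y', PP S γ y ∧ PP S γ y' ∧ t = y + y'} := by
    by_contra hn
    obtain ⟨μ, h1, h2⟩ := ETC.exists_dual_sep hn
    have h3 : μ ∈ Ec S γ := const_mem he fun y y' hy hy' =>
      h2 _ (Submodule.subset_span ⟨y, y', hy, hy', rfl⟩)
    rw [hE γ hγ hγ0] at h3
    rw [mem_An.1 hd μ h3] at h1
    exact zero_ne_one h1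
  exact hT hd' x hx

/-- **Theorem C.** -/
theorem thmC (h4 : ∀ β ∈ E, β ≠ 0 → ∃ γ ∈ E, γ ≠ 0 ∧ β ≠ γ) (hne : ∃ β ∈ E, β ≠ 0 ∧
    ∃ x, PP S β x) : ∃ ω ∈ R S, LinearMap.range ω = E ∧
      ∀ q, ∀ β ∈ E, β ≠ 0 → (PP S β q ↔ ω q = β) := by
  classical
  have hfin : Module.Finite (ZMod 2) V := Module.Finite.of_finite
  have hex : ∀ β ∈ E, β ≠ 0 → ∃ x, PP S β x := by
    intro β hβ hβ0
    obtain ⟨γ, hγ, hγ0, y, hy⟩ := hne
    obtain ⟨ρ, hρ, h1⟩ := ext1 hS hy
    obtain ⟨x, hx⟩ := (hE.fe hγ hγ0 hβ hβ0 ρ hρ).1 ⟨y, h1⟩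
    exact ⟨x, PP_of hρ hx⟩
  let xf : E → V := fun β => if h : (β : Dl V) = 0 then 0 else (hex β β.2 h).choose
  have xf0 : ∀ β : E, (β : Dl V) = 0 → xf β = 0 := fun β h => dif_pos h
  have xf1 : ∀ β : E, (β : Dl V) ≠ 0 → PP S β (xf β) := by
    intro β h
    have e : xf β = (hex β β.2 h).choose := dif_neg h
    rw [e]
    exact (hex β β.2 h).choose_spec
  let A := An E
  have e2 : ∀ a b : V, a + b ∈ A → A.mkQ a = A.mkQ b := by
    intro a b h
    rw [← sub_eq_zero, ← map_sub, ZModModule.sub_eq_add]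
    exact (Submodule.Quotient.mk_eq_zero A).2 h
  have e3 : ∀ a b : V, A.mkQ a = A.mkQ b → a + b ∈ A := by
    intro a b h
    rw [← sub_eq_zero, ← map_sub, ZModModule.sub_eq_add] at h
    exact (Submodule.Quotient.mk_eq_zero A).1 h
  let f0 : E →+ V ⧸ A := AddMonoidHom.mk' (fun β => A.mkQ (xf β)) (by
    intro β γ
    show A.mkQ (xf (β + γ)) = A.mkQ (xf β) + A.mkQ (xf γ)
    rw [← map_add]
    apply e2
    by_cases hβ : (β : Dl V) = 0
    · have e : β + γ = γ := Subtype.ext (by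
        show (β : Dl V) + γ = γ
        rw [hβ, zero_add])
      rw [e, xf0 β hβ, zero_add, ZModModule.add_self]
      exact A.zero_mem
    by_cases hγ : (γ : Dl V) = 0
    · have e : β + γ = β := Subtype.ext (by
        show (β : Dl V) + γ = β
        rw [hγ, add_zero])
      rw [e, xf0 γ hγ, add_zero, ZModModule.add_self]
      exact A.zero_mem
    by_cases hbg : (β : Dl V) = γ
    · have e : β = γ := Subtype.ext hbg
      have e' : ((β + γ : E) : Dl V) = 0 := by
        show (β : Dl V) + γ = 0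
        rw [hbg, ZModModule.add_self]
      rw [xf0 _ e', e, ZModModule.add_self, zero_add]
      exact A.zero_mem
    · have hs : ((β + γ : E) : Dl V) ≠ 0 := fun h => hbg (eo h)
      have h1 := key hS (hE.fe β.2 hβ γ.2 hγ) (xf1 β hβ) (xf1 γ hγ)
      exact clC he hS hE (β + γ).2 hs (xf1 _ hs) h1)
  let f : E →ₗ[ZMod 2] V ⧸ A := f0.toZModLinearMap 2
  have hf : ∀ β : E, f β = A.mkQ (xf β) := fun β => rfl
  have hinj : Function.Injective f := by
    rw [← LinearMap.ker_eq_bot, LinearMap.ker_eq_bot']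
    intro β hβ
    by_contra h
    have h0 : (β : Dl V) ≠ 0 := fun h' => h (Subtype.ext h')
    rw [hf] at hβ
    have h1 : xf β ∈ A := (Submodule.Quotient.mk_eq_zero A).1 hβ
    have h2 := clB he hS hE h4 β.2 h0 (xf1 β h0) h1
    rw [ZModModule.add_self] at h2
    exact PP_ne h0 h2 rfl
  have hdim : Module.finrank (ZMod 2) E = Module.finrank (ZMod 2) (V ⧸ A) := by
    have h1 := Subspace.finrank_add_finrank_dualCoannihilator_eq (K := ZMod 2) (V := V) E
    have h2 := Submodule.finrank_quotient_add_finrank A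
    change Module.finrank (ZMod 2) E + Module.finrank (ZMod 2) A = _ at h1
    omega
  let g := f.linearEquivOfInjective hinj hdim
  have hg : ∀ β : E, g β = A.mkQ (xf β) := fun β => rfl
  let ω : Fm V := (E.subtype ∘ₗ (g.symm : (V ⧸ A) →ₗ[ZMod 2] E)) ∘ₗ A.mkQ
  have hω : ∀ q, ω q = ((g.symm (A.mkQ q) : E) : Dl V) := fun q => rfl
  have hiff : ∀ q, ∀ β ∈ E, β ≠ 0 → (PP S β q ↔ ω q = β) := by
    intro q β hβ hβ0
    have h1 := xf1 ⟨β, hβ⟩ hβ0
    rw [hω]
    constructor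
    · intro h
      have h2 : A.mkQ q = g ⟨β, hβ⟩ := by
        rw [hg]
        exact e2 _ _ (clC he hS hE hβ hβ0 h h1)
      rw [h2, LinearEquiv.symm_apply_apply]
    · intro h
      have h2 : g.symm (A.mkQ q) = ⟨β, hβ⟩ := Subtype.ext h
      have h3 : A.mkQ q = g ⟨β, hβ⟩ := by rw [← h2, LinearEquiv.apply_symm_apply]
      rw [hg] at h3
      have h4' := e3 _ _ h3
      have h5 := clB he hS hE h4 hβ hβ0 h1 h4'
      rw [add_comm q, ← add_assoc, ZModModule.add_self, zero_add] at h5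
      exact h5
  have hmem : ∀ q, ω q ∈ E := fun q => (g.symm (A.mkQ q)).2
  refine ⟨ω, ?_, ?_, hiff⟩
  · intro x v hxv
    by_cases h : ω x = 0
    · rw [h, LinearMap.zero_apply]
    · exact (hiff x _ (hmem x) h).2 rfl v hxv
  · apply le_antisymm
    · rintro _ ⟨q, rfl⟩
      exact hmem q
    · intro β hβ
      by_cases h : β = 0
      · rw [h]
        exact Submodule.zero_mem _
      · obtain ⟨x, hx⟩ := hex β hβ h
        exact ⟨x, (hiff x β hβ h).1 hx⟩

end thmC

end Pool.Agent.ETSC
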