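import Pool.Agent.ETSC.ThmC

/-!
# Sign coherence (helper72, note 3133), part 3: atoms, helper24
-/

set_option autoImplicit false
set_option linter.unusedSectionVars false
set_option linter.unusedSimpArgs false
set_option linter.unnecessarySeqFocus false

namespace Pool.Agent.ETSC

open QS
open Pool.Agent.Helper58.PLine (QData)
open Pool.Agent.ETCP

variable {V Q : Type} [AddCommGroup V] [Module (ZMod 2) V] {S : QData V Q}


/-- perfect atoms -/
structure Atm (S : QData V Q) (ω : Fm V) : Prop where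
  mem : ω ∈ R S
  ne : ω ≠ 0
  per : ∀ q, ∀ β ∈ LinearMap.range ω, β ≠ 0 → PP S β q → ω q = β
  cl : ∀ ρ ∈ R S, ∀ β ∈ LinearMap.range ω, β ≠ 0 → β ∈ LinearMap.range ρ →
    LinearMap.range ω ≤ LinearMap.range ρ

/-- no minimal closed subspace is of dimension one -/
def ND (S : QData V Q) : Prop :=
  ∀ β : Dl V, β ≠ 0 → (∃ x, PP S β x) → ∃ γ ∈ Ec S β, γ ≠ 0 ∧ β ≠ γ

theorem rad_le (he : S.e = 0) {ω ρ : Fm V} (hω : ω ∈ R S) (hρ : ρ ∈ R S)
    (h : LinearMap.range ω ≤ LinearMap.range ρ) {d : V} (hd : ρ d = 0) : ω d = 0 := by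
  apply LinearMap.ext
  intro z
  obtain ⟨z', hz⟩ := h ⟨z, rfl⟩
  rw [R_symm he hω, ← hz, R_symm he hρ, hd]
  rfl

theorem range_le [Finite V] (he : S.e = 0) {ω ρ : Fm V} (hω : ω ∈ R S) (hρ : ρ ∈ R S)
    (h : ∀ d, ρ d = 0 → ω d = 0) : LinearMap.range ω ≤ LinearMap.range ρ := by
  have hfin : Module.Finite (ZMod 2) V := Module.Finite.of_finite
  rintro _ ⟨z, rfl⟩
  by_contra hn
  obtain ⟨d, h1, h2⟩ := dsep _ hn
  have h3 : ρ d = 0 := by
    apply LinearMap.ext
    intro u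
    rw [R_symm he hρ]
    exact h1 _ ⟨u, rfl⟩
  rw [R_symm he hω, h d h3] at h2
  exact zero_ne_one h2

/-- the part of `ρ` over the image of an atom `ω ≤ ρ` -/
theorem Atm.eq_on (he : S.e = 0) {ω ρ : Fm V} (A : Atm S ω) (hρ : ρ ∈ R S)
    (h : LinearMap.range ω ≤ LinearMap.range ρ) {q : V} (hq : ρ q ∈ LinearMap.range ω) :
    ρ q = ω q := by
  by_cases h0 : ρ q = 0
  · rw [h0, rad_le he A.mem hρ h h0]
  · exact (A.per q _ hq h0 (PP_of hρ rfl)).symm

theorem Atm.disj (he : S.e = 0) {ω ρ : Fm V} (A : Atm S ω) (hρ : ρ ∈ R S)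
    (h : LinearMap.range ω ≤ LinearMap.range ρ) {β : Dl V} (h1 : β ∈ LinearMap.range ω)
    (h2 : β ∈ LinearMap.range (ρ + ω)) : β = 0 := by
  obtain ⟨q, rfl⟩ := h2
  have h3 : ρ q ∈ LinearMap.range ω := by
    have h4 := Submodule.add_mem _ h1 (⟨q, rfl⟩ : ω q ∈ LinearMap.range ω)
    rw [LinearMap.add_apply, add_self'] at h4
    exact h4
  rw [LinearMap.add_apply, A.eq_on he hρ h h3, ZModModule.add_self]

theorem range_add_le {ω ρ : Fm V} (h : LinearMap.range ω ≤ LinearMap.range ρ) :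
    LinearMap.range (ρ + ω) ≤ LinearMap.range ρ := by
  rintro _ ⟨q, rfl⟩
  rw [LinearMap.add_apply]
  exact Submodule.add_mem _ ⟨q, rfl⟩ (h ⟨q, rfl⟩)

/-- distinct atoms have disjoint images -/
theorem Atm.eq_of (he : S.e = 0) {ω ω' : Fm V} (A : Atm S ω) (A' : Atm S ω') {β : Dl V}
    (h0 : β ≠ 0) (h1 : β ∈ LinearMap.range ω) (h2 : β ∈ LinearMap.range ω') : ω = ω' := by
  have h3 := A.cl ω' A'.mem β h1 h0 h2
  have h4 := A'.cl ω A.mem β h2 h0 h1
  apply LinearMap.ext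
  intro q
  exact (A.eq_on he A'.mem h3 (h4 ⟨q, rfl⟩)).symm

theorem Atm.exists_ne {ω : Fm V} (A : Atm S ω) : ∃ x, ω x ≠ 0 := by
  by_contra h
  push Not at h
  exact A.ne (LinearMap.ext h)

/-- an atom below every `β` in the image of a form -/
theorem exists_atom [Finite V] (he : S.e = 0) (hS : Emb S) (hD : ND S) {β : Dl V} (hβ : β ≠ 0)
    (hx : ∃ x, PP S β x) : ∃ ω, Atm S ω ∧ LinearMap.range ω ≤ Ec S β := by
  obtain ⟨γ, hγ0, hγ, hm⟩ := exists_min (S := S) hβ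
  have hex : ∀ δ ∈ Ec S β, ∃ x, PP S δ x := by
    intro δ hδ
    obtain ⟨x, hx⟩ := hx
    obtain ⟨ρ, hρ, h1⟩ := ext1 hS hx
    obtain ⟨y, hy⟩ := hδ ρ hρ ⟨x, h1⟩
    exact ⟨y, PP_of hρ hy⟩
  have hle : Ec S γ ≤ Ec S β := Ec_le hγ
  obtain ⟨ω, h1, h2, h3⟩ := thmC he hS hm (by
    intro δ hδ hδ0
    obtain ⟨ε, h4, h5, h6⟩ := hD δ hδ0 (hex δ (hle hδ))
    rw [hm δ hδ hδ0] at h4
    exact ⟨ε, h4, h5, h6⟩) ⟨γ, self_mem γ, hγ0, hex γ hγ⟩
  refine ⟨ω, ⟨h1, ?_, ?_, ?_⟩, by rw [h2]; exact hle⟩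
  · rintro rfl
    apply hγ0
    have h4 : γ ∈ Ec S γ := self_mem γ
    rw [← h2] at h4
    obtain ⟨x, hx⟩ := h4
    rw [← hx]
    rfl
  · intro q δ hδ hδ0 hq
    rw [h2] at hδ
    exact (h3 q δ hδ hδ0).1 hq
  · intro ρ hρ δ hδ hδ0 h4
    rw [h2] at hδ ⊢
    intro ε hε
    rw [← hm δ hδ hδ0] at hε
    exact hε ρ hρ h4

/-- an atom below every form -/
theorem exists_atom_le [Finite V] (he : S.e = 0) (hS : Emb S) (hD : ND S) {ρ : Fm V}
    (hρ : ρ ∈ R S) {β : Dl V} (hβ : β ≠ 0) (h : β ∈ LinearMap.range ρ) :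
    ∃ ω, Atm S ω ∧ LinearMap.range ω ≤ Ec S β ∧ LinearMap.range ω ≤ LinearMap.range ρ := by
  obtain ⟨x, hx⟩ := h
  obtain ⟨ω, h1, h2⟩ := exists_atom he hS hD hβ ⟨x, PP_of hρ hx⟩
  exact ⟨ω, h1, h2, fun μ hμ => h2 hμ ρ hρ ⟨x, hx⟩⟩

/-- forms are sums of atoms: a pair killed by all atoms is killed by all forms -/
theorem kill_of_atoms [Finite V] (he : S.e = 0) (hS : Emb S) (hD : ND S) {x v : V}
    (h : ∀ ω, Atm S ω → ω x v = 0) : ∀ ρ ∈ R S, ρ x v = 0 := by
  have hfin : Module.Finite (ZMod 2) V := Module.Finite.of_finite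
  have key : ∀ (n : ℕ) (ρ : Fm V), ρ ∈ R S →
      Module.finrank (ZMod 2) (LinearMap.range ρ) = n → ρ x v = 0 := by
    intro n
    induction n using Nat.strong_induction_on with
    | _ n ih =>
      intro ρ hρ hn
      by_cases h0 : ρ = 0
      · rw [h0]
        rfl
      obtain ⟨u, hu⟩ : ∃ u, ρ u ≠ 0 := by
        by_contra hc
        push Not at hc
        exact h0 (LinearMap.ext hc)
      obtain ⟨ω, h1, -, h3⟩ := exists_atom_le he hS hD hρ hu ⟨u, rfl⟩
      have hlt : LinearMap.range (ρ + ω) < LinearMap.range ρ := by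
        refine lt_of_le_of_ne (range_add_le h3) ?_
        intro h4
        obtain ⟨y, hy⟩ := h1.exists_ne
        have h5 : ω y ∈ LinearMap.range (ρ + ω) := by
          rw [h4]
          exact h3 ⟨y, rfl⟩
        exact hy (h1.disj he hρ h3 ⟨y, rfl⟩ h5)
      have h4 := ih _ (hn ▸ Submodule.finrank_lt_finrank_of_lt hlt) (ρ + ω)
        (Submodule.add_mem _ hρ h1.mem) rfl
      rw [LinearMap.add_apply, LinearMap.add_apply, h ω h1, add_zero] at h4
      exact h4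
  intro ρ hρ
  exact key _ ρ hρ rfl

/-- families of atoms with independent images -/
def Ind (A : Finset (Fm V)) : Prop :=
  ∀ f : Fm V → Dl V, (∀ ω ∈ A, f ω ∈ LinearMap.range ω) → ∑ ω ∈ A, f ω = 0 → ∀ ω ∈ A, f ω = 0

theorem Ind.mono {A B : Finset (Fm V)} (h : Ind B) (hAB : A ⊆ B) : Ind A := by
  classical
  intro f hf hs ω hω
  have h1 := h (fun ω => if ω ∈ A then f ω else 0) (by
    intro ω _
    by_cases h : ω ∈ A
    · rw [if_pos h]
      exact hf ω h
    · rw [if_neg h]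
      exact Submodule.zero_mem _) (by
    rw [← Finset.sum_filter, Finset.filter_mem_eq_inter, Finset.inter_eq_right.2 hAB]
    exact hs) ω (hAB hω)
  rw [if_pos hω] at h1
  exact h1

/-- independence gives simultaneous solutions -/
theorem Ind.solve [Finite V] (he : S.e = 0) {A : Finset (Fm V)} (hA : Ind A)
    (hR : ∀ ω ∈ A, ω ∈ R S) (f : Fm V → Dl V) (hf : ∀ ω ∈ A, f ω ∈ LinearMap.range ω) :
    ∃ x, ∀ ω ∈ A, ω x = f ω := by
  classical
  have hfin : Module.Finite (ZMod 2) V := Module.Finite.of_finite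
  have hfin' : Module.Finite (ZMod 2) (A → V) := inferInstance
  let Φ : V →ₗ[ZMod 2] Dl (A → V) :=
    { toFun := fun x => ∑ ω : A, ((ω : Fm V) x).comp (LinearMap.proj ω)
      map_add' := by
        intro a b
        rw [← Finset.sum_add_distrib]
        apply Finset.sum_congr rfl
        intro ω _
        rw [map_add, LinearMap.add_comp]
      map_smul' := by
        intro c a
        rw [RingHom.id_apply, Finset.smul_sum]
        apply Finset.sum_congr rfl
        intro ω _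
        rw [map_smul, LinearMap.smul_comp] }
  let t : Dl (A → V) := ∑ ω : A, (f ω).comp (LinearMap.proj ω)
  have hΦ : ∀ x (z : A → V), Φ x z = ∑ ω : A, (ω : Fm V) x (z ω) := by
    intro x z
    show (∑ ω : A, ((ω : Fm V) x).comp (LinearMap.proj ω)) z = _
    rw [LinearMap.sum_apply]
    rfl
  have ht : ∀ z : A → V, t z = ∑ ω : A, f ω (z ω) := by
    intro z
    show (∑ ω : A, (f ω).comp (LinearMap.proj ω)) z = _
    rw [LinearMap.sum_apply]
    rfl
  have hmem : t ∈ LinearMap.range Φ := by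
    by_contra hn
    obtain ⟨z, h1, h2⟩ := dsep _ hn
    have h3 : ∑ ω ∈ A, (fun ω : Fm V => if h : ω ∈ A then ω (z ⟨ω, h⟩) else 0) ω = 0 := by
      apply LinearMap.ext
      intro x
      have h4 := h1 _ ⟨x, rfl⟩
      rw [hΦ] at h4
      rw [← Finset.sum_coe_sort, LinearMap.sum_apply, LinearMap.zero_apply, ← h4]
      apply Finset.sum_congr rfl
      intro ω _
      show (if h : (ω : Fm V) ∈ A then (ω : Fm V) (z ⟨ω, h⟩) else 0) x = _
      rw [dif_pos ω.2, R_symm he (hR _ ω.2)]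
    have h5 := hA _ (by
      intro ω hω
      show (if h : ω ∈ A then ω (z ⟨ω, h⟩) else 0) ∈ _
      rw [dif_pos hω]
      exact ⟨_, rfl⟩) h3
    have h6 : t z = 0 := by
      rw [ht]
      apply Finset.sum_eq_zero
      intro ω _
      have h7 := h5 ω ω.2
      change (if h : (ω : Fm V) ∈ A then (ω : Fm V) (z ⟨ω, h⟩) else 0) = 0 at h7
      rw [dif_pos ω.2] at h7
      obtain ⟨u, hu⟩ := hf ω ω.2
      rw [← hu, R_symm he (hR _ ω.2), h7, LinearMap.zero_apply]
    rw [h6] at h2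
    exact zero_ne_one h2
  obtain ⟨x, hx⟩ := hmem
  refine ⟨x, fun ω hω => ?_⟩
  apply LinearMap.ext
  intro v
  have h1 := LinearMap.congr_fun hx (Pi.single ⟨ω, hω⟩ v)
  rw [hΦ, ht, Finset.sum_eq_single (⟨ω, hω⟩ : A), Finset.sum_eq_single (⟨ω, hω⟩ : A)] at h1
  · rw [Pi.single_eq_same] at h1
    exact h1
  · intro b _ hb
    rw [Pi.single_eq_of_ne hb, map_zero]
  · intro h
    exact absurd (Finset.mem_univ _) h
  · intro b _ hb
    rw [Pi.single_eq_of_ne hb, map_zero]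
  · intro h
    exact absurd (Finset.mem_univ _) h

end Pool.Agent.ETSC
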