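import Pool.Agent.ETGP.NC

/-!
# Sign coherence (helper72, note 3133), part 1: forms, duality, the Key Lemma, helper24

`R S` is the space of all bilinear forms which vanish on the commuting pairs.
`Emb S`: the quaternions are separated by `R S`, i.e. `Q` embeds in the universal group.
-/

set_option autoImplicit false
set_option linter.unusedSectionVars false
set_option linter.unusedSimpArgs false
set_option linter.unnecessarySeqFocus false

namespace Pool.Agent.ETSC

open QS
open Pool.Agent.Helper58.PLine (QData)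
open Pool.Agent.ETCP

/-- the dual space -/
abbrev Dl (V : Type) [AddCommGroup V] [Module (ZMod 2) V] := V →ₗ[ZMod 2] ZMod 2

/-- bilinear forms -/
abbrev Fm (V : Type) [AddCommGroup V] [Module (ZMod 2) V] := V →ₗ[ZMod 2] Dl V

theorem z2 (a : ZMod 2) : a = 0 ∨ a = 1 := by
  revert a
  decide

theorem z2ne {a : ZMod 2} (h : a ≠ 0) : a = 1 := (z2 a).resolve_left h

theorem z2add {a b : ZMod 2} (h : a + b = 0) : a = b := by
  revert a b
  decide

/-- separation of a functional from a space of functionals by a vector -/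
theorem dsep {W : Type} [AddCommGroup W] [Module (ZMod 2) W] [Module.Finite (ZMod 2) W]
    (N : Submodule (ZMod 2) (Dl W)) {β : Dl W} (h : β ∉ N) :
    ∃ w, (∀ ν ∈ N, ν w = 0) ∧ β w = 1 := by
  by_contra hn
  push Not at hn
  apply h
  have e : N.dualCoannihilator.dualAnnihilator = N :=
    Subspace.dualCoannihilator_dualAnnihilator_eq (K := ZMod 2) (V := W)
  rw [← e, Submodule.mem_dualAnnihilator]
  intro w hw
  rw [Submodule.mem_dualCoannihilator] at hw
  by_contra h1
  exact hn w hw (z2ne h1)

variable {V Q : Type} [AddCommGroup V] [Module (ZMod 2) V]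

theorem fin_of [Finite V] : Module.Finite (ZMod 2) V := Module.Finite.of_finite

/-- the forms vanishing on the commuting pairs -/
def R (S : QData V Q) : Submodule (ZMod 2) (Fm V) where
  carrier := {ρ | ∀ x v, C S x v → ρ x v = 0}
  add_mem' := by
    intro a b ha hb x v h
    rw [LinearMap.add_apply, LinearMap.add_apply, ha x v h, hb x v h, add_zero]
  zero_mem' := fun x v _ => rfl
  smul_mem' := by
    intro c a ha x v h
    rw [LinearMap.smul_apply, LinearMap.smul_apply, ha x v h, smul_zero]

/-- the quaternions are separated by forms -/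
def Emb (S : QData V Q) : Prop :=
  ∀ x v z w, (∀ ρ ∈ R S, ρ x v = ρ z w) → S.q x v = S.q z w

/-- `β` vanishes on `V_x` -/
def PP (S : QData V Q) (β : Dl V) (x : V) : Prop := ∀ v, C S x v → β v = 0

variable {S : QData V Q}

theorem R_zero {ρ : Fm V} (hρ : ρ ∈ R S) {x v : V} (h : C S x v) : ρ x v = 0 := hρ x v h

theorem R_alt (he : S.e = 0) {ρ : Fm V} (hρ : ρ ∈ R S) (x : V) : ρ x x = 0 :=
  hρ x x (C.self he x)

theorem R_symm (he : S.e = 0) {ρ : Fm V} (hρ : ρ ∈ R S) (x v : V) : ρ x v = ρ v x := by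
  have h := R_alt he hρ (x + v)
  have e : ρ (x + v) (x + v) = ρ x x + ρ x v + (ρ v x + ρ v v) := by
    rw [map_add ρ, LinearMap.add_apply, map_add, map_add]
  rw [e, R_alt he hρ x, R_alt he hρ v, zero_add, add_zero] at h
  exact z2add h

theorem PP_of {ρ : Fm V} (hρ : ρ ∈ R S) {x : V} {β : Dl V} (h : ρ x = β) : PP S β x :=
  fun v hv => by rw [← h]; exact hρ x v hv

theorem PP_add_form {β γ : Dl V} {x : V} (h : PP S β x) (h' : PP S γ x) : PP S (β + γ) x :=
  fun v hv => by rw [LinearMap.add_apply, h v hv, h' v hv, add_zero]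

theorem PP_zero (x : V) : PP S (0 : Dl V) x := fun _ _ => rfl

theorem PP_ne {β : Dl V} (hβ : β ≠ 0) {x : V} (h : PP S β x) : x ≠ 0 := by
  rintro rfl
  exact hβ (LinearMap.ext fun v => h v (C.zero' v))

/-- links for functionals -/
theorem lk {x v z w : V} (h : S.q x v = S.q z w) {β γ : Dl V} (hx : PP S β x) (hz : PP S γ z)
    (hxz : PP S (β + γ) (x + z)) : β v = γ w := by
  obtain ⟨u, h1, h2⟩ := S.link x v z w h
  have e1 : β (v + u) = 0 := hx _ (q_eq_iff.1 h1)
  have e2 : γ (w + u) = 0 := hz _ (q_eq_iff.1 h2)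
  have e3 : (β + γ) u = 0 := hxz u (q_eq'_iff.1 (by rw [← h1, h, h2]))
  rw [map_add] at e1 e2
  rw [LinearMap.add_apply] at e3
  rw [z2add e1, z2add e2, z2add e3]

/-- links for one functional -/
theorem lk1 {x v z w : V} (h : S.q x v = S.q z w) {β : Dl V} (hx : PP S β x) (hz : PP S β z) :
    β v = β w := by
  refine lk h hx hz ?_
  have e : β + β = 0 := ZModModule.add_self β
  rw [e]
  exact PP_zero _

/-- compatible pairs extend -/
theorem ext2 [Finite V] (hE : Emb S) {x z : V} {β γ : Dl V} (hx : PP S β x) (hz : PP S γ z)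
    (hxz : PP S (β + γ) (x + z)) : ∃ ρ ∈ R S, ρ x = β ∧ ρ z = γ := by
  classical
  have hfin : Module.Finite (ZMod 2) (V × V) := Module.Finite.of_finite
  let Φ : Fm V →ₗ[ZMod 2] Dl (V × V) :=
    { toFun := fun ρ => (ρ x).comp (LinearMap.fst (ZMod 2) V V) +
        (ρ z).comp (LinearMap.snd (ZMod 2) V V)
      map_add' := by
        intro a b
        apply LinearMap.ext
        rintro ⟨v, w⟩
        simp only [LinearMap.add_apply, LinearMap.comp_apply, LinearMap.fst_apply,
          LinearMap.snd_apply]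
        ring
      map_smul' := by
        intro c a
        apply LinearMap.ext
        rintro ⟨v, w⟩
        simp only [LinearMap.add_apply, LinearMap.smul_apply, LinearMap.comp_apply,
          LinearMap.fst_apply, LinearMap.snd_apply, RingHom.id_apply, smul_add] }
  let t : Dl (V × V) := β.comp (LinearMap.fst (ZMod 2) V V) + γ.comp (LinearMap.snd (ZMod 2) V V)
  by_cases ht : t ∈ (R S).map Φ
  · obtain ⟨ρ, hρ, e⟩ := Submodule.mem_map.1 ht
    refine ⟨ρ, hρ, ?_, ?_⟩
    · apply LinearMap.ext
      intro v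
      have := LinearMap.congr_fun e (v, (0 : V))
      simpa [Φ, t] using this
    · apply LinearMap.ext
      intro v
      have := LinearMap.congr_fun e ((0 : V), v)
      simpa [Φ, t] using this
  · exfalso
    obtain ⟨⟨v, w⟩, h1, h2⟩ := dsep _ ht
    have h3 : β v + γ w = 1 := h2
    have h4 : S.q x v = S.q z w := by
      apply hE
      intro ρ hρ
      have h5 : ρ x v + ρ z w = 0 := h1 _ (Submodule.mem_map_of_mem hρ)
      exact z2add h5
    rw [lk h4 hx hz hxz, CharTwo.add_self_eq_zero] at h3
    exact zero_ne_one h3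

/-- `L_x = R x` -/
theorem ext1 [Finite V] (hE : Emb S) {x : V} {β : Dl V} (hx : PP S β x) :
    ∃ ρ ∈ R S, ρ x = β := by
  obtain ⟨ρ, hρ, h1, -⟩ := ext2 hE (z := 0) (γ := 0) hx (PP_zero _) (by rwa [add_zero, add_zero])
  exact ⟨ρ, hρ, h1⟩

/-- either a form kills `y` and not `(x, v)`, or `x v = y w` for some `w` -/
theorem kill_or [Finite V] (x v y : V) :
    (∃ τ ∈ R S, τ y = 0 ∧ τ x v = 1) ∨ ∃ w, ∀ ρ ∈ R S, ρ x v = ρ y w := by
  classical
  have hfin : Module.Finite (ZMod 2) V := Module.Finite.of_finite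
  have hfinD : Module.Finite (ZMod 2) (R S) := inferInstance
  let Ψ : V →ₗ[ZMod 2] Dl (R S) :=
    { toFun := fun w =>
        { toFun := fun ρ => (ρ : Fm V) y w
          map_add' := fun a b => rfl
          map_smul' := fun c a => rfl }
      map_add' := by
        intro a b
        apply LinearMap.ext
        intro ρ
        exact map_add ((ρ : Fm V) y) a b
      map_smul' := by
        intro c a
        apply LinearMap.ext
        intro ρ
        exact map_smul ((ρ : Fm V) y) c a }
  let e : Dl (R S) :=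
    { toFun := fun ρ => (ρ : Fm V) x v
      map_add' := fun a b => rfl
      map_smul' := fun c a => rfl }
  by_cases h : e ∈ LinearMap.range Ψ
  · obtain ⟨w, hw⟩ := h
    right
    refine ⟨w, fun ρ hρ => ?_⟩
    exact (LinearMap.congr_fun hw ⟨ρ, hρ⟩).symm
  · obtain ⟨τ, h1, h2⟩ := dsep _ h
    left
    refine ⟨τ, τ.2, ?_, h2⟩
    apply LinearMap.ext
    intro w
    exact h1 _ ⟨w, rfl⟩

/-- the sign of an element of `ZMod 2` -/
def sg (a : ZMod 2) : ℤ := if a = 0 then 1 else -1

theorem sg_add (a b : ZMod 2) : sg (a + b) = sg a * sg b := by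
  revert a b
  decide

theorem sg_zero : sg 0 = 1 := rfl

theorem sg_one : sg 1 = -1 := rfl

theorem sg_sq (a : ZMod 2) : sg a * sg a = 1 := by
  revert a
  decide

open Classical in
/-- the sum over all forms `ρ` and all `y` with `ρ y = β` of the sign of `ρ (a, b)` -/
noncomputable def H (S : QData V Q) [Fintype V] [Fintype (R S)] (β : Dl V) (a b : V) : ℤ :=
  ∑ y : V, ∑ ρ : R S, if (ρ : Fm V) y = β then sg ((ρ : Fm V) a b) else 0

open Classical in
/-- **Sign coherence.** -/
theorem coh [Fintype V] [Fintype (R S)] (hE : Emb S) {β : Dl V} {x : V} (hx : PP S β x) (v : V) :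
    0 < sg (β v) * H S β x v := by
  have hterm : ∀ y : V, 0 ≤ ∑ ρ : R S, (if (ρ : Fm V) y = β then sg (β v + (ρ : Fm V) x v)
      else 0) := by
    intro y
    by_cases hall : ∀ ρ : R S, (ρ : Fm V) y = β → (ρ : Fm V) x v = β v
    · apply Finset.sum_nonneg
      intro ρ _
      by_cases h : (ρ : Fm V) y = β
      · rw [if_pos h, hall ρ h, CharTwo.add_self_eq_zero]
        decide
      · rw [if_neg h]
    · push Not at hall
      obtain ⟨ρ1, h1, h2⟩ := hall
      rcases kill_or (S := S) x v y with ⟨τ, hτ, h3, h4⟩ | ⟨w, hw⟩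
      · -- the involution `ρ ↦ ρ + τ`
        set T : ℤ := ∑ ρ : R S, (if (ρ : Fm V) y = β then sg (β v + (ρ : Fm V) x v) else 0)
          with hT
        have h5 : T = -T := by
          conv_lhs => rw [hT]
          rw [← Equiv.sum_comp (Equiv.addRight (⟨τ, hτ⟩ : R S)), hT, ← Finset.sum_neg_distrib]
          apply Finset.sum_congr rfl
          intro ρ _
          have e1 : ((Equiv.addRight (⟨τ, hτ⟩ : R S) ρ : R S) : Fm V) y = (ρ : Fm V) y := by
            show ((ρ : Fm V) + τ) y = (ρ : Fm V) y
            rw [LinearMap.add_apply, h3, add_zero]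
          have e2 : ((Equiv.addRight (⟨τ, hτ⟩ : R S) ρ : R S) : Fm V) x v =
              (ρ : Fm V) x v + 1 := by
            show ((ρ : Fm V) + τ) x v = (ρ : Fm V) x v + 1
            rw [LinearMap.add_apply, LinearMap.add_apply, h4]
          rw [e1, e2]
          by_cases h : (ρ : Fm V) y = β
          · rw [if_pos h, if_pos h, ← add_assoc, sg_add, sg_one, mul_neg_one]
          · rw [if_neg h, if_neg h, neg_zero]
        have : T = 0 := by omega
        rw [this]
      · exfalso
        have h5 : S.q x v = S.q y w := hE x v y w hw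
        have h6 : β v = β w := lk1 h5 hx (PP_of ρ1.2 h1)
        apply h2
        rw [hw _ ρ1.2, h1, ← h6]
  have e : sg (β v) * H S β x v =
      ∑ y : V, ∑ ρ : R S, (if (ρ : Fm V) y = β then sg (β v + (ρ : Fm V) x v) else 0) := by
    unfold H
    rw [Finset.mul_sum]
    apply Finset.sum_congr rfl
    intro y _
    rw [Finset.mul_sum]
    apply Finset.sum_congr rfl
    intro ρ _
    by_cases h : (ρ : Fm V) y = β
    · rw [if_pos h, if_pos h, sg_add]
    · rw [if_neg h, if_neg h, mul_zero]
  rw [e]
  apply Finset.sum_pos' (fun y _ => hterm y)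
  refine ⟨x, Finset.mem_univ _, ?_⟩
  apply Finset.sum_pos'
  · intro ρ _
    by_cases h : (ρ : Fm V) x = β
    · rw [if_pos h, h, CharTwo.add_self_eq_zero]
      decide
    · rw [if_neg h]
  · obtain ⟨ρ, hρ, h⟩ := ext1 hE hx
    refine ⟨⟨ρ, hρ⟩, Finset.mem_univ _, ?_⟩
    rw [if_pos h]
    show 0 < sg (β v + ρ x v)
    rw [h, CharTwo.add_self_eq_zero]
    decide

/-- `β` and `γ` are in the images of the same forms -/
def FE (S : QData V Q) (β γ : Dl V) : Prop := ∀ ρ ∈ R S, (∃ x, ρ x = β) ↔ ∃ x, ρ x = γ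

open Classical in
theorem H_eq [Fintype V] [Fintype (R S)] {β γ : Dl V} (h : FE S β γ) (a b : V) :
    H S β a b = H S γ a b := by
  unfold H
  rw [Finset.sum_comm, Finset.sum_comm (s := Finset.univ) (t := Finset.univ)
    (f := fun (y : V) (ρ : R S) => if (ρ : Fm V) y = γ then sg ((ρ : Fm V) a b) else 0)]
  apply Finset.sum_congr rfl
  intro ρ _
  by_cases hx : ∃ x, (ρ : Fm V) x = β
  · obtain ⟨x, hx'⟩ := hx
    obtain ⟨y, hy'⟩ := (h ρ ρ.2).1 ⟨x, hx'⟩
    rw [← Equiv.sum_comp (Equiv.addRight (x + y))]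
    apply Finset.sum_congr rfl
    intro u _
    have e : ((ρ : Fm V) (Equiv.addRight (x + y) u) = β) ↔ ((ρ : Fm V) u = γ) := by
      show (ρ : Fm V) (u + (x + y)) = β ↔ _
      rw [map_add, map_add, hx', hy']
      constructor
      · intro h1
        have h2 : (ρ : Fm V) u + γ + β = 0 + β := by
          rw [zero_add, add_assoc, add_comm γ β]
          exact h1
        have h3 := add_right_cancel h2
        exact eo h3
      · rintro rfl
        rw [add_comm β, ← add_assoc, ZModModule.add_self, zero_add]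
    by_cases h1 : (ρ : Fm V) u = γ
    · rw [if_pos (e.2 h1), if_pos h1]
    · rw [if_neg (fun h2 => h1 (e.1 h2)), if_neg h1]
  · have hy : ¬ ∃ y, (ρ : Fm V) y = γ := fun h' => hx ((h ρ ρ.2).2 h')
    push Not at hx hy
    rw [Finset.sum_eq_zero fun u _ => if_neg (hx u), Finset.sum_eq_zero fun u _ => if_neg (hy u)]

theorem H_congr [Fintype V] [Fintype (R S)] (β : Dl V) {a b a' b' : V}
    (h : ∀ ρ ∈ R S, ρ a b = ρ a' b') : H S β a b = H S β a' b' := by
  unfold H
  apply Finset.sum_congr rfl
  intro y _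
  apply Finset.sum_congr rfl
  intro ρ _
  rw [h _ ρ.2]

/-- **Key Lemma.** -/
theorem key [Finite V] (hE : Emb S) {β γ : Dl V} (h : FE S β γ) {x y : V} (hx : PP S β x)
    (hy : PP S γ y) : PP S (β + γ) (x + y) := by
  classical
  have hfin : Module.Finite (ZMod 2) V := Module.Finite.of_finite
  have := Fintype.ofFinite V
  have hR : Finite (R S) := Module.finite_of_finite (ZMod 2)
  have := Fintype.ofFinite (R S)
  intro v hv
  have e1 := coh hE hx v
  have e2 := coh hE hy v
  have e3 : H S γ y v = H S β x v := by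
    rw [H_eq h]
    apply H_congr
    intro ρ hρ
    have h1 : ρ (x + y) v = 0 := hρ _ _ hv
    rw [map_add, LinearMap.add_apply] at h1
    exact (z2add h1).symm
  rw [e3] at e2
  rw [LinearMap.add_apply]
  rcases z2 (β v) with a | a <;> rcases z2 (γ v) with b | b
  · rw [a, b, add_zero]
  · rw [a, sg_zero] at e1
    rw [b, sg_one] at e2
    omega
  · rw [a, sg_one] at e1
    rw [b, sg_zero] at e2
    omega
  · rw [a, b]
    decide

end Pool.Agent.ETSC
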