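import Pool.Agent.ETSC.Atoms

/-!
# Sign coherence (helper72, note 3133), part 4: the images of the atoms are independent, helper24

The end of the case of three atoms by parity is due to helper34.
-/

set_option autoImplicit false
set_option linter.unusedSectionVars false
set_option linter.unusedSimpArgs false
set_option linter.unnecessarySeqFocus false

namespace Pool.Agent.ETSC

open QS
open Pool.Agent.Helper58.PLine (QData)
open Pool.Agent.ETCP

variable {V Q : Type} [AddCommGroup V] [Module (ZMod 2) V] {S : QData V Q}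

theorem coset [Finite V] (he : S.e = 0) (hS : Emb S) {a b : Fm V} (A : Atm S a) (B : Atm S b)
    {β : Dl V} {x : V} (hx : PP S β x) (hle : LinearMap.range a ≤ Ec S β) (hab : a x + b x = β)
    (hb : b x ≠ 0) {y : V} (hy : PP S β y) : a (x + y) = 0 ∧ b (x + y) = 0 := by
  obtain ⟨ρ, hρ, h1, h2⟩ := ext2 hS hx hy (by
    have e : β + β = 0 := ZModModule.add_self β
    rw [e]
    exact PP_zero _)
  have h3 : LinearMap.range a ≤ LinearMap.range ρ := fun μ hμ => hle hμ ρ hρ ⟨x, h1⟩
  have hd : ρ (x + y) = 0 := by rw [map_add, h1, h2, ZModModule.add_self]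
  have ha := rad_le he A.mem hρ h3 hd
  have hρ' : ρ + a ∈ R S := Submodule.add_mem _ hρ A.mem
  have h4 : (ρ + a) x = b x := by
    rw [LinearMap.add_apply, h1, ← hab, add_comm (a x), add_self']
  have h5 : LinearMap.range b ≤ LinearMap.range (ρ + a) :=
    B.cl _ hρ' (b x) ⟨x, rfl⟩ hb ⟨x, h4⟩
  refine ⟨ha, rad_le he B.mem hρ' h5 ?_⟩
  rw [LinearMap.add_apply, hd, ha, add_zero]

/-- the rank of a form -/
noncomputable abbrev rk (ρ : Fm V) : ℕ := Module.finrank (ZMod 2) (LinearMap.range ρ)

theorem range_sup {a ρ : Fm V} (h : LinearMap.range a ≤ LinearMap.range ρ) :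
    LinearMap.range ρ = LinearMap.range a ⊔ LinearMap.range (ρ + a) := by
  apply le_antisymm
  · rintro _ ⟨q, rfl⟩
    have e : ρ q = a q + (ρ + a) q := by
      rw [LinearMap.add_apply, add_comm, add_self']
    rw [e]
    exact Submodule.add_mem_sup ⟨q, rfl⟩ ⟨q, rfl⟩
  · exact sup_le h (range_add_le h)

theorem Atm.rk_add [Finite V] (he : S.e = 0) {a ρ : Fm V} (A : Atm S a) (hρ : ρ ∈ R S)
    (h : LinearMap.range a ≤ LinearMap.range ρ) : rk ρ = rk a + rk (ρ + a) := by
  have hfin : Module.Finite (ZMod 2) V := Module.Finite.of_finite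
  have h1 := Submodule.finrank_sup_add_finrank_inf_eq (LinearMap.range a)
    (LinearMap.range (ρ + a))
  rw [← range_sup h] at h1
  have h2 : LinearMap.range a ⊓ LinearMap.range (ρ + a) = ⊥ := by
    rw [eq_bot_iff]
    rintro β ⟨h3, h4⟩
    exact A.disj he hρ h h3 h4
  rw [h2, finrank_bot, add_zero] at h1
  exact h1

open Classical in
theorem pair_ind (he : S.e = 0) {a b : Fm V} (A : Atm S a) (B : Atm S b) (hab : a ≠ b) :
    Ind ({a, b} : Finset (Fm V)) := by
  classical
  intro f hf hs
  rw [Finset.sum_pair hab] at hs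
  have e : f a = f b := eo hs
  have h1 : f a = 0 := by
    by_contra h0
    exact hab (A.eq_of he B h0 (hf a (by simp)) (by rw [e]; exact hf b (by simp)))
  intro ω hω
  rcases Finset.mem_insert.1 hω with rfl | hω
  · exact h1
  · rw [Finset.mem_singleton] at hω
    rw [hω, ← e, h1]

theorem range_pair [Finite V] (he : S.e = 0) {a b : Fm V} (A : Atm S a) (B : Atm S b)
    (hab : a ≠ b) : LinearMap.range a ≤ LinearMap.range (a + b) := by
  classical
  rintro _ ⟨u, rfl⟩
  obtain ⟨x, hx⟩ := (pair_ind he A B hab).solve he (S := S) (by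
    intro ω hω
    rcases Finset.mem_insert.1 hω with rfl | hω
    · exact A.mem
    · rw [Finset.mem_singleton] at hω
      rw [hω]
      exact B.mem) (fun ω => if ω = a then a u else 0) (by
    intro ω hω
    by_cases h : ω = a
    · rw [if_pos h, h]
      exact ⟨u, rfl⟩
    · rw [if_neg h]
      exact Submodule.zero_mem _)
  refine ⟨x, ?_⟩
  have h1 := hx a (by simp)
  have h2 := hx b (by simp)
  rw [if_pos rfl] at h1
  rw [if_neg (Ne.symm hab)] at h2
  rw [LinearMap.add_apply, h1, h2, add_zero]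

theorem rk_pair [Finite V] (he : S.e = 0) {a b : Fm V} (A : Atm S a) (B : Atm S b)
    (hab : a ≠ b) : rk (a + b) = rk a + rk b := by
  have h := A.rk_add he (Submodule.add_mem _ A.mem B.mem) (range_pair he A B hab)
  have e : a + b + a = b := by rw [add_comm a b, add_self']
  rw [e] at h
  exact h

theorem range_pair_le {a b : Fm V} {U : Submodule (ZMod 2) (Dl V)} (h1 : LinearMap.range a ≤ U)
    (h2 : LinearMap.range b ≤ U) : LinearMap.range (a + b) ≤ U := by
  rintro _ ⟨x, rfl⟩
  exact U.add_mem (h1 ⟨x, rfl⟩) (h2 ⟨x, rfl⟩)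

/-- an atom meeting the image of the sum of two others has the same rank -/
theorem triple_le [Finite V] (he : S.e = 0) {a b c : Fm V} (A : Atm S a) (B : Atm S b)
    (hC : Atm S c) (hab : a ≠ b) {x y z : V} (h : a x + b y = c z) (hz : c z ≠ 0) :
    LinearMap.range c ≤ LinearMap.range (a + b) := by
  apply hC.cl _ (Submodule.add_mem _ A.mem B.mem) (c z) ⟨z, rfl⟩ hz
  rw [← h]
  refine Submodule.add_mem _ (range_pair he A B hab ⟨x, rfl⟩) ?_
  rw [add_comm a b]
  exact range_pair he B A (Ne.symm hab) ⟨y, rfl⟩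

theorem triple_rk [Finite V] (he : S.e = 0) {a b c : Fm V} (A : Atm S a) (B : Atm S b)
    (hC : Atm S c) (hab : a ≠ b) (hac : a ≠ c) (hbc : b ≠ c) {x y z : V}
    (h : a x + b y = c z) (hx : a x ≠ 0) (hy : b y ≠ 0) (hz : c z ≠ 0) :
    rk a = rk c ∧ rk b = rk c := by
  have hh : a x + c z = b y := by rw [← h, ← add_assoc, ZModModule.add_self, zero_add]
  have hh' : b y + c z = a x := by rw [← h, add_comm (a x), ← add_assoc, ZModModule.add_self,
    zero_add]
  have h1 := hC.rk_add he (Submodule.add_mem _ A.mem B.mem)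
    (triple_le he A B hC hab h hz)
  have h2 := B.rk_add he (Submodule.add_mem _ A.mem hC.mem)
    (triple_le he A hC B hac hh hy)
  have h3 := A.rk_add he (Submodule.add_mem _ B.mem hC.mem)
    (triple_le he B hC A hbc hh' hx)
  rw [rk_pair he A B hab] at h1
  rw [rk_pair he A hC hac] at h2
  rw [rk_pair he B hC hbc] at h3
  have e2 : a + c + b = a + b + c := by abel
  have e3 : b + c + a = a + b + c := by abel
  rw [e2] at h2
  rw [e3] at h3
  omega

/-- the number of nonzero elements of a nonzero subspace is odd -/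
theorem odd_sub {M : Type} [AddCommGroup M] [Module (ZMod 2) M] [Fintype M] [DecidableEq M]
    (U : Submodule (ZMod 2) M) [DecidablePred (· ∈ U)] {u : M} (hu : u ∈ U) (hu0 : u ≠ 0) :
    ∑ β : M, (if β ∈ U ∧ β ≠ 0 then (1 : ZMod 2) else 0) = 1 := by
  have h1 : ∑ β : M, (if β ∈ U then (1 : ZMod 2) else 0) = 0 := by
    have hm : ∀ β, β + u ∈ U ↔ β ∈ U := fun β => by
      constructor
      · intro h
        have := U.add_mem h hu
        rwa [add_self'] at this
      · exact fun h => U.add_mem h hu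
    apply Finset.sum_involution (fun β _ => β + u)
    · intro β _
      by_cases h : β ∈ U
      · rw [if_pos h, if_pos ((hm β).2 h)]
        decide
      · rw [if_neg h, if_neg fun h' => h ((hm β).1 h'), add_zero]
    · intro β _ _ h
      exact hu0 (by simpa using h)
    · intro β _
      exact Finset.mem_univ _
    · intro β _
      exact add_self' β u
  have h2 : ∑ β : M, (if β ∈ U then (1 : ZMod 2) else 0) =
      ∑ β : M, ((if β ∈ U ∧ β ≠ 0 then (1 : ZMod 2) else 0) + if β = 0 then 1 else 0) := by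
    apply Finset.sum_congr rfl
    intro β _
    by_cases h0 : β = 0
    · rw [if_pos (by rw [h0]; exact U.zero_mem), if_neg (fun h => h.2 h0), if_pos h0, zero_add]
    · by_cases h : β ∈ U
      · rw [if_pos h, if_pos ⟨h, h0⟩, if_neg h0, add_zero]
      · rw [if_neg h, if_neg (fun h' => h h'.1), if_neg h0, add_zero]
  rw [h1, Finset.sum_add_distrib, Finset.sum_ite_eq' Finset.univ (0 : M), if_pos
    (Finset.mem_univ _)] at h2
  exact z2add h2.symm

/-- three atoms are independent -/
theorem no_triple [Finite V] (he : S.e = 0) (hS : Emb S) (hD : ND S) {a b c : Fm V}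
    (A : Atm S a) (B : Atm S b) (hC : Atm S c) (hab : a ≠ b) (hac : a ≠ c) (hbc : b ≠ c)
    {x y z : V} (h : a x + b y = c z) (hx : a x ≠ 0) (hy : b y ≠ 0) (hz : c z ≠ 0) : False := by
  classical
  have hfin : Module.Finite (ZMod 2) V := Module.Finite.of_finite
  have hfD : Finite (Dl V) := Module.finite_of_finite (ZMod 2)
  have hfF : Finite (Fm V) := Module.finite_of_finite (ZMod 2)
  have := Fintype.ofFinite (Dl V)
  have := Fintype.ofFinite (Fm V)
  set σ : Fm V := a + b with hσ
  have hσR : σ ∈ R S := Submodule.add_mem _ A.mem B.mem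
  have haσ : LinearMap.range a ≤ LinearMap.range σ := range_pair he A B hab
  have hbσ : LinearMap.range b ≤ LinearMap.range σ := by
    rw [hσ, add_comm a b]
    exact range_pair he B A (Ne.symm hab)
  have hcσ : LinearMap.range c ≤ LinearMap.range σ := triple_le he A B hC hab h hz
  obtain ⟨r1, r2⟩ := triple_rk he A B hC hab hac hbc h hx hy hz
  have hrσ : rk σ = 2 * rk c := by
    rw [hσ, rk_pair he A B hab, r1, r2]
    ring
  -- all atoms inside the image of `σ` have the same rank
  have hrk : ∀ ω, Atm S ω → LinearMap.range ω ≤ LinearMap.range σ → rk ω = rk c := by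
    intro ω W hω
    by_cases h1 : ω = a
    · rw [h1, r1]
    by_cases h2 : ω = b
    · rw [h2, r2]
    obtain ⟨u, hu⟩ := W.exists_ne
    obtain ⟨q, hq⟩ := hω ⟨u, rfl⟩
    have hq' : a q + b q = ω u := hq
    have h3 : a q ≠ 0 := by
      intro h3
      rw [h3, zero_add] at hq'
      exact h2 (W.eq_of he B hu ⟨u, rfl⟩ ⟨q, hq'⟩)
    have h4 : b q ≠ 0 := by
      intro h4
      rw [h4, add_zero] at hq'
      exact h1 (W.eq_of he A hu ⟨u, rfl⟩ ⟨q, hq'⟩)
    have h5 := triple_rk he A B W hab (Ne.symm h1) (Ne.symm h2) hq' h3 h4 hu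
    rw [← h5.1, r1]
  have hpos : 0 < rk c := by
    rw [Module.finrank_pos_iff_exists_ne_zero]
    exact ⟨⟨c z, z, rfl⟩, fun h0 => hz (congrArg Subtype.val h0)⟩
  have hσ0 : ∀ β ∈ LinearMap.range σ, β ≠ 0 → ∃ ω, Atm S ω ∧
      LinearMap.range ω ≤ Ec S β ∧ LinearMap.range ω ≤ LinearMap.range σ :=
    fun β hβ h0 => exists_atom_le he hS hD hσR h0 hβ
  -- the involution
  have hinv : ∀ ω, Atm S ω → LinearMap.range ω ≤ LinearMap.range σ →
      Atm S (ω + σ) ∧ LinearMap.range (ω + σ) ≤ LinearMap.range σ := by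
    intro ω W hω
    have e : ω + σ = σ + ω := add_comm _ _
    rw [e]
    have h1 := W.rk_add he hσR hω
    rw [hrk ω W hω, hrσ] at h1
    have h2 : rk (σ + ω) = rk c := by omega
    have hle : LinearMap.range (σ + ω) ≤ LinearMap.range σ := range_add_le hω
    have hR' : σ + ω ∈ R S := Submodule.add_mem _ hσR W.mem
    obtain ⟨β, hβ0⟩ : ∃ β : LinearMap.range (σ + ω), β ≠ 0 := by
      rw [← Module.finrank_pos_iff_exists_ne_zero (R := ZMod 2)]
      change 0 < rk (σ + ω)
      rw [h2]
      exact hpos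
    obtain ⟨α, h3, -, h5⟩ := exists_atom_le he hS hD hR'
      (fun h0 => hβ0 (Subtype.ext h0)) β.2
    have h6 : LinearMap.range α = LinearMap.range (σ + ω) := by
      apply Submodule.eq_of_le_of_finrank_eq h5
      change rk α = rk (σ + ω)
      rw [h2, hrk α h3 (h5.trans hle)]
    have h7 : σ + ω = α := by
      apply LinearMap.ext
      intro q
      exact h3.eq_on he hR' h5 (by rw [h6]; exact ⟨q, rfl⟩)
    rw [h7]
    exact ⟨h3, h5.trans hle⟩
  -- every element of the image of `σ` lies in the image of an atom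
  have hcov : ∀ β ∈ LinearMap.range σ, β ≠ 0 → ∃ ω, Atm S ω ∧
      LinearMap.range ω ≤ LinearMap.range σ ∧ β ∈ LinearMap.range ω := by
    intro β hβ h0
    obtain ⟨ω, h1, h2, h3⟩ := hσ0 β hβ h0
    refine ⟨ω, h1, h3, ?_⟩
    obtain ⟨u, hu⟩ := hβ
    obtain ⟨h4, h5⟩ := hinv ω h1 h3
    have e1 : ω u + (ω + σ) u = β := by
      rw [LinearMap.add_apply, ← add_assoc, ZModModule.add_self, zero_add, hu]
    by_cases h6 : (ω + σ) u = 0
    · rw [h6, add_zero] at e1
      exact ⟨u, e1⟩
    exfalso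
    have hτ : a + c ∈ R S := Submodule.add_mem _ A.mem hC.mem
    have hτ' : b + c ∈ R S := Submodule.add_mem _ B.mem hC.mem
    have g1 : LinearMap.range (a + c) = LinearMap.range σ := by
      apply Submodule.eq_of_le_of_finrank_eq (range_pair_le haσ hcσ)
      change rk (a + c) = rk σ
      rw [rk_pair he A hC hac, hrσ, r1]
      ring
    have g2 : LinearMap.range (b + c) = LinearMap.range σ := by
      apply Submodule.eq_of_le_of_finrank_eq (range_pair_le hbσ hcσ)
      change rk (b + c) = rk σ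
      rw [rk_pair he B hC hbc, hrσ, r2]
      ring
    obtain ⟨u', hu'⟩ : β ∈ LinearMap.range (a + c) := by
      rw [g1]
      exact ⟨u, hu⟩
    obtain ⟨k1, k2⟩ := coset he hS h1 h4 (PP_of hσR hu) h2 e1 h6 (PP_of hτ hu')
    have k3 : σ (u + u') = 0 := by
      have : (ω + σ) (u + u') = ω (u + u') + σ (u + u') := rfl
      rw [k2, k1, zero_add] at this
      exact this.symm
    have k4 : (a + c) (u + u') = 0 := rad_le he hτ hσR (le_of_eq g1) k3
    rw [map_add, hu'] at k4
    have k5 : (a + c) u = β := eo k4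
    have k6 : (b + c) u = 0 := by
      have e2 : (b + c) u = σ u + (a + c) u := by
        show b u + c u = a u + b u + (a u + c u)
        rw [add_comm (a u) (b u), add_assoc (b u), ← add_assoc (a u), ZModModule.add_self,
          zero_add]
      rw [e2, hu, k5, ZModModule.add_self]
    have k7 : σ u = 0 := rad_le he hσR hτ' (le_of_eq g2.symm) k6
    exact h0 (hu ▸ k7)
  -- parity
  set Ω : Finset (Fm V) := Finset.univ.filter fun ω => Atm S ω ∧
    LinearMap.range ω ≤ LinearMap.range σ with hΩ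
  have hmem : ∀ ω, ω ∈ Ω ↔ Atm S ω ∧ LinearMap.range ω ≤ LinearMap.range σ := by
    intro ω
    rw [hΩ, Finset.mem_filter]
    exact ⟨fun h => h.2, fun h => ⟨Finset.mem_univ _, h⟩⟩
  have p1 : ∑ ω ∈ Ω, (1 : ZMod 2) = 0 := by
    apply Finset.sum_involution (fun ω _ => ω + σ)
    · intro ω _
      decide
    · intro ω _ _ h0
      have h1 : σ = 0 := by simpa using h0
      apply hx
      have h2 := rad_le he A.mem hσR haσ (d := x) (by rw [h1]; rfl)
      exact h2
    · intro ω hω
      obtain ⟨h1, h2⟩ := (hmem ω).1 hω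
      exact (hmem _).2 (hinv ω h1 h2)
    · intro ω _
      exact add_self' ω σ
  have p2 : ∑ β : Dl V, (if β ∈ LinearMap.range σ ∧ β ≠ 0 then (1 : ZMod 2) else 0) = 1 :=
    odd_sub _ (haσ ⟨x, rfl⟩) hx
  have p3 : ∑ β : Dl V, (if β ∈ LinearMap.range σ ∧ β ≠ 0 then (1 : ZMod 2) else 0) =
      ∑ β : Dl V, ∑ ω ∈ Ω, (if β ∈ LinearMap.range ω ∧ β ≠ 0 then (1 : ZMod 2) else 0) := by
    apply Finset.sum_congr rfl
    intro β _
    by_cases h0 : β ∈ LinearMap.range σ ∧ β ≠ 0
    · rw [if_pos h0]
      obtain ⟨ω, h1, h2, h3⟩ := hcov β h0.1 h0.2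
      rw [Finset.sum_eq_single ω]
      · rw [if_pos ⟨h3, h0.2⟩]
      · intro ω' hω' hne
        rw [if_neg]
        intro h4
        exact hne (((hmem ω').1 hω').1.eq_of he h1 h0.2 h4.1 h3)
      · intro h4
        exact absurd ((hmem ω).2 ⟨h1, h2⟩) h4
    · rw [if_neg h0, Finset.sum_eq_zero]
      intro ω hω
      rw [if_neg]
      intro h4
      exact h0 ⟨((hmem ω).1 hω).2 h4.1, h4.2⟩
  rw [Finset.sum_comm] at p3
  have p4 : ∑ ω ∈ Ω, ∑ β : Dl V, (if β ∈ LinearMap.range ω ∧ β ≠ 0 then (1 : ZMod 2) else 0) =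
      ∑ ω ∈ Ω, (1 : ZMod 2) := by
    apply Finset.sum_congr rfl
    intro ω hω
    obtain ⟨u, hu⟩ := ((hmem ω).1 hω).1.exists_ne
    exact odd_sub _ ⟨u, rfl⟩ hu
  rw [p4, p1, p2] at p3
  exact one_ne_zero p3

end Pool.Agent.ETSC
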