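import Pool.Agent.ETSC.Base
import Pool.Agent.ETCLH.Main
import Pool.Agent.ETCT.TWOQ

/-!
# The law MM of helper83, the law AL of helper93 and the law Y of helper20 as doors, helper24

In a minimal counterexample some hyperplane would be linked if one of these laws were known.
-/

set_option autoImplicit false
set_option linter.unusedSectionVars false
set_option linter.unusedSimpArgs false
set_option linter.unnecessarySeqFocus false

namespace Pool.Agent.ETSC

open QS
open Pool.Agent.Helper58.PLine (QData)
open Pool.Agent.ETCP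
open Pool.Agent.ETCLH (LinkedZ LHZ)

variable {V Q : Type} [AddCommGroup V] [Module (ZMod 2) V]

/-- the plane of `x` and `y` inside `ker l` is not linked in `ker l` -/
def Bad (S : QData V Q) (l : Dl V) (x y : V) : Prop :=
  l x = 0 ∧ l y = 0 ∧ (∀ k, C S x k → C S y k → l k = 0) ∧ ¬ PP S l x ∧ ¬ PP S l y ∧
    ¬ PP S l (x + y)

variable {S : QData V Q}

theorem npp {l : Dl V} {x : V} (h : ¬ PP S l x) : ∃ k, C S x k ∧ l k = 1 := by
  unfold PP at h
  push Not at h
  obtain ⟨k, h1, h2⟩ := h
  exact ⟨k, h1, z2ne h2⟩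

/-- without bad planes the hyperplane is linked -/
theorem linked_of_not_bad {l : Dl V} (hl : l ≠ 0) (h : ∀ x y, ¬ Bad S l x y) :
    LinkedZ (fun a b => C S a b) l := by
  refine ⟨hl, fun a b c d ha hb hc hd he => ?_⟩
  obtain ⟨x, h1, h2, h3⟩ := he
  rcases z2 (l x) with h0 | h0
  · exact ⟨x, h0, h1, h2, h3⟩
  -- a common annihilator outside the hyperplane
  have key : ∃ k, C S a k ∧ C S c k ∧ l k = 1 := by
    by_contra hn
    push Not at hn
    refine h a c ⟨ha, hc, fun k h4 h5 => ?_, ?_, ?_, ?_⟩
    · by_contra h6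
      exact hn k h4 h5 (z2ne h6)
    · intro h4
      have := h4 _ h1
      rw [map_add, hb, h0, zero_add] at this
      exact one_ne_zero this
    · intro h4
      have := h4 _ h2
      rw [map_add, hd, h0, zero_add] at this
      exact one_ne_zero this
    · intro h4
      rw [h4 _ h3] at h0
      exact zero_ne_one h0
  obtain ⟨k, k1, k2, k3⟩ := key
  refine ⟨x + k, ?_, ?_, ?_, ?_⟩
  · rw [map_add, h0, k3]
    decide
  · show C S a (b + (x + k))
    rw [← add_assoc]
    exact C.add h1 k1
  · show C S c (d + (x + k))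
    rw [← add_assoc]
    exact C.add h2 k2
  · exact C.add h3 (C.add' k1 k2)

/-! ### the mass -/

open Classical in
/-- the symmetric matrix of helper72 -/
noncomputable def mm (S : QData V Q) [Fintype V] (l g : Dl V) : ℤ :=
  ∑ x : V, ∑ v : V, if C S x v then sg (l v + g x) else 0

theorem mm_symm [Fintype V] (l g : Dl V) : mm S l g = mm S g l := by
  classical
  unfold mm
  rw [Finset.sum_comm]
  apply Finset.sum_congr rfl
  intro x _
  apply Finset.sum_congr rfl
  intro v _
  by_cases h : C S v x
  · rw [if_pos h, if_pos h.symm, add_comm]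
  · rw [if_neg h, if_neg fun h' => h h'.symm]

open Classical in
/-- the mass of the elements `x` with `V_x ⊆ ker l` -/
noncomputable def mass (S : QData V Q) [Fintype V] (l : Dl V) : ℤ :=
  ∑ x : V, if PP S l x then (Nat.card (S.ann x) : ℤ) else 0

open Classical in
theorem sum_ann [Fintype V] (l : Dl V) (x : V) :
    ∑ v : V, (if C S x v then sg (l v) else 0) =
      if PP S l x then (Nat.card (S.ann x) : ℤ) else 0 := by
  by_cases h : PP S l x
  · rw [if_pos h]
    have e : ∑ v : V, (if C S x v then sg (l v) else 0) = ∑ v : V, if C S x v then 1 else 0 := by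
      apply Finset.sum_congr rfl
      intro v _
      by_cases hv : C S x v
      · rw [if_pos hv, if_pos hv, h v hv]
        rfl
      · rw [if_neg hv, if_neg hv]
    rw [e, Finset.sum_boole, Nat.card_eq_fintype_card, Fintype.card_subtype]
    rfl
  · rw [if_neg h]
    obtain ⟨k, hk, hk1⟩ := npp h
    set T : ℤ := ∑ v : V, (if C S x v then sg (l v) else 0) with hT
    have h5 : T = -T := by
      conv_lhs => rw [hT]
      rw [← Equiv.sum_comp (Equiv.addRight k), hT, ← Finset.sum_neg_distrib]
      apply Finset.sum_congr rfl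
      intro v _
      show (if C S x (v + k) then sg (l (v + k)) else 0) = -(if C S x v then sg (l v) else 0)
      by_cases hv : C S x v
      · rw [if_pos hv, if_pos (C.add hv hk), map_add, sg_add, hk1, sg_one, mul_neg_one]
      · rw [if_neg hv, if_neg, neg_zero]
        intro h'
        apply hv
        have := C.add h' hk
        rwa [add_assoc, ZModModule.add_self, add_zero] at this
    omega

theorem mm_eq [Fintype V] (l g : Dl V) : mm S l g =
    ∑ x : V, sg (g x) * (open Classical in if PP S l x then (Nat.card (S.ann x) : ℤ) else 0) := by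
  classical
  unfold mm
  apply Finset.sum_congr rfl
  intro x _
  rw [← sum_ann, Finset.mul_sum]
  apply Finset.sum_congr rfl
  intro v _
  by_cases h : C S x v
  · rw [if_pos h, if_pos h, sg_add, mul_comm]
  · rw [if_neg h, if_neg h, mul_zero]

open Classical in
/-- the part of the mass inside `ker g` -/
noncomputable def part (S : QData V Q) [Fintype V] (l g : Dl V) : ℤ :=
  ∑ x : V, if PP S l x ∧ g x = 0 then (Nat.card (S.ann x) : ℤ) else 0

theorem mm_part [Fintype V] (l g : Dl V) : mm S l g = 2 * part S l g - mass S l := by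
  classical
  rw [mm_eq, part, mass, Finset.mul_sum, ← Finset.sum_sub_distrib]
  apply Finset.sum_congr rfl
  intro x _
  by_cases h : PP S l x
  · rw [if_pos h]
    rcases z2 (g x) with h0 | h0
    · rw [if_pos ⟨h, h0⟩, h0, sg_zero]
      ring
    · rw [if_neg (fun h' => by rw [h'.2] at h0; exact zero_ne_one h0), h0, sg_one]
      ring
  · rw [if_neg h, if_neg fun h' => h h'.1]
    ring

theorem mass_sub [Fintype V] (l g : Dl V) :
    mass S g - mass S l = 2 * (part S g l - part S l g) := by
  have h1 := mm_part (S := S) l g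
  have h2 := mm_part (S := S) g l
  have h3 := mm_symm (S := S) l g
  omega

/-- helper71's order gives an inequality of masses -/
theorem mass_lt [Fintype V] (he : S.e = 0) {l g : Dl V} (h : ∀ x, PP S l x → g x = 0 → PP S g x)
    (h' : ∃ x, PP S g x ∧ l x = 0 ∧ ¬ PP S l x) : mass S l < mass S g := by
  classical
  have h1 := mass_sub (S := S) l g
  have h2 : part S l g < part S g l := by
    unfold part
    apply Finset.sum_lt_sum
    · intro x _
      by_cases hx : PP S l x ∧ g x = 0
      · rw [if_pos hx, if_pos ⟨h x hx.1 hx.2, hx.1 x (C.self he x)⟩]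
      · rw [if_neg hx]
        split_ifs
        · exact Int.natCast_nonneg _
        · exact le_rfl
    · obtain ⟨x, x1, x2, x3⟩ := h'
      refine ⟨x, Finset.mem_univ _, ?_⟩
      rw [if_neg fun h => x3 h.1, if_pos ⟨x1, x2⟩]
      exact_mod_cast Nat.card_pos
  omega

/-! ### the doors -/

open Pool.Agent.RFT Pool.Agent.ETG Pool.Agent.AST in
/-- **door LH for functionals**: in a minimal counterexample every hyperplane has a bad plane -/
theorem elem_of_not_bad (S : QStruct) [Finite S.G] (hneg : S.neg = 1)
    (hT : ETCT.SmallerET S)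
    (h : ∃ l : Dl (Additive S.G), l ≠ 0 ∧ ∀ x y, ¬ Bad (toD S hneg) l x y) : ElemType S := by
  have hf : Finite (Additive S.G) := (inferInstance : Finite S.G)
  obtain ⟨l, h1, h2⟩ := h
  exact LHZ (lzs S hneg) (smaller S hT) ⟨l, linked_of_not_bad h1 h2⟩ S (qof S hneg)

theorem etc_of_min (h : ∀ S : QStruct, Finite S.G → S.neg = 1 → ETCT.SmallerET S →
    ¬ ElemType S → ElemType S) : ∀ S : QStruct, Finite S.G → S.neg = 1 → ElemType S := by
  have key : ∀ (n : ℕ) (S : QStruct), Finite S.G → Nat.card S.G = n → S.neg = 1 →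
      ElemType S := by
    intro n
    induction n using Nat.strong_induction_on with
    | _ n ih =>
      intro S hf hn hneg
      by_contra hcon
      exact hcon (h S hf hneg (fun T hT hTn hc => ih _ (by omega) T hT rfl hTn) hcon)
  exact fun S hf hneg => key _ S hf rfl hneg

open Pool.Agent.AST in
/-- a trivial group is of elementary type -/
theorem nontriv {S : QStruct} (hc : ¬ ElemType S) : Nontrivial (Additive S.G) := by
  by_contra h
  apply hc
  apply ElemType.L0
  rw [Nat.card_eq_one_iff_unique]
  rw [not_nontrivial_iff_subsingleton] at h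
  exact ⟨⟨fun x y => h.allEq (Additive.ofMul x) (Additive.ofMul y)⟩, ⟨1⟩⟩

open Pool.Agent.AST in
/-- **the conjecture (`-1 = 1`) from the law MM**: for `l` of maximal mass `ker l` has no bad
plane -/
theorem etc_of_MM
    (h : ∀ (S : QStruct) (_ : Finite S.G) (hneg : S.neg = 1), ETCT.SmallerET S → ¬ ElemType S →
      ∀ (_ : Fintype (Additive S.G)) (l : Dl (Additive S.G)), l ≠ 0 →
        (∀ g : Dl (Additive S.G), g ≠ 0 → mass (toD S hneg) g ≤ mass (toD S hneg) l) →
          ∀ x y, ¬ Bad (toD S hneg) l x y) :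
    ∀ S : QStruct, Finite S.G → S.neg = 1 → ElemType S := by
  refine etc_of_min fun S hf hneg hT hc => ?_
  have hfA : Finite (Additive S.G) := (inferInstance : Finite S.G)
  have := Fintype.ofFinite (Additive S.G)
  have hfin : Module.Finite (ZMod 2) (Additive S.G) := Module.Finite.of_finite
  have hfD : Finite (Dl (Additive S.G)) := Module.finite_of_finite (ZMod 2)
  have hnt := nontriv hc
  obtain ⟨v, hv⟩ := exists_ne (0 : Additive S.G)
  obtain ⟨l0, hl0, -⟩ := ETC.exists_dual_sep (V := Additive S.G)
    (p := (⊥ : Submodule (ZMod 2) (Additive S.G))) (x := v) (by simpa using hv)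
  have hs : {l : Dl (Additive S.G) | l ≠ 0}.Finite := Set.toFinite _
  obtain ⟨l, hl, hm⟩ := Set.exists_max_image _ (fun l => mass (toD S hneg) l) hs
    ⟨l0, fun h0 => by rw [h0] at hl0; exact zero_ne_one hl0⟩
  exact elem_of_not_bad S hneg hT ⟨l, hl, h S hf hneg hT hc _ l hl hm⟩

open Pool.Agent.AST in
/-- **the conjecture (`-1 = 1`) from the law AL of helper93** -/
theorem etc_of_AL
    (h : ∀ (S : QStruct) (_ : Finite S.G) (hneg : S.neg = 1), ETCT.SmallerET S → ¬ ElemType S →
      ∀ (l : Dl (Additive S.G)) (x y : Additive S.G), l ≠ 0 → Bad (toD S hneg) l x y →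
        ∃ g : Dl (Additive S.G), g ≠ 0 ∧ (∀ z, PP (toD S hneg) l z → g z = 0 →
          PP (toD S hneg) g z) ∧ ∃ z, PP (toD S hneg) g z ∧ l z = 0 ∧ ¬ PP (toD S hneg) l z) :
    ∀ S : QStruct, Finite S.G → S.neg = 1 → ElemType S := by
  refine etc_of_MM fun S hf hneg hT hc _ l hl hm x y hb => ?_
  obtain ⟨g, hg, h1, h2⟩ := h S hf hneg hT hc l x y hl hb
  have h3 := mass_lt (S := toD S hneg) rfl h1 h2
  exact absurd h3 (not_lt.2 (hm g hg))

open Pool.Agent.RFT Pool.Agent.ETG Pool.Agent.AST in
/-- **the conjecture (`-1 = 1`) from the law Y of helper20**: if `|V_y|` is maximal, `y ≠ 0`, then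
no hyperplane which contains `V_y` has a bad plane; one hyperplane is enough -/
theorem etc_of_Y
    (h : ∀ (S : QStruct) (_ : Finite S.G) (hneg : S.neg = 1), ETCT.SmallerET S → ¬ ElemType S →
      ∀ y : Additive S.G, y ≠ 0 → (∀ x : Additive S.G, x ≠ 0 →
        Nat.card ((toD S hneg).ann x) ≤ Nat.card ((toD S hneg).ann y)) →
        (toD S hneg).ann y ≠ ⊤ →
          ∃ l : Dl (Additive S.G), l ≠ 0 ∧ ∀ x z, ¬ Bad (toD S hneg) l x z) :
    ∀ S : QStruct, Finite S.G → S.neg = 1 → ElemType S := by
  refine etc_of_min fun S hf hneg hT hc => ?_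
  have hfA : Finite (Additive S.G) := (inferInstance : Finite S.G)
  have hnt := nontriv hc
  obtain ⟨v, hv⟩ := exists_ne (0 : Additive S.G)
  have hs : {x : Additive S.G | x ≠ 0}.Finite := Set.toFinite _
  obtain ⟨y, hy, hm⟩ := Set.exists_max_image {x : Additive S.G | x ≠ 0}
    (fun x => Nat.card ((toD S hneg).ann x)) hs ⟨v, hv⟩
  have hET : ¬ ETZ (ZS S) := fun h' => hc (h' S (qof S hneg))
  obtain ⟨h1, -⟩ := RED (Additive S.G) (ZS S) (lzs S hneg) (smaller S hT) hET
  have hy' : (toD S hneg).ann y ≠ ⊤ := by
    intro htop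
    apply hy
    apply h1
    intro v w
    have : v ∈ (toD S hneg).ann y := by rw [htop]; exact Submodule.mem_top
    exact Or.inl this
  exact elem_of_not_bad S hneg hT (h S hf hneg hT hc y hy hm hy')

end Pool.Agent.ETSC
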