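import Pool.Agent.ETSC.Dep

/-!
# Sign coherence (helper72, note 3133), part 5: Theorem D, helper24
-/

set_option autoImplicit false
set_option linter.unusedSectionVars false
set_option linter.unusedSimpArgs false
set_option linter.unnecessarySeqFocus false

namespace Pool.Agent.ETSC

open QS
open Pool.Agent.Helper58.PLine (QData)
open Pool.Agent.ETCP

variable {V Q : Type} [AddCommGroup V] [Module (ZMod 2) V] {S : QData V Q}

open Classical in
/-- one of the two cases of step (ii), `k ≥ 4` -/
theorem caseK [Finite V] (he : S.e = 0) (hS : Emb S) {k : ℕ}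
    (ih : ∀ A : Finset (Fm V), (∀ ω ∈ A, Atm S ω) → A.card < k → Ind A)
    {A C : Finset (Fm V)} {a b : Fm V} (hA : ∀ ω ∈ A, Atm S ω) (ha : a ∈ A) (hb : b ∈ A)
    (hC : C = (A.erase a).erase b) (hab : a ≠ b) (hk : A.card = k) {f : Fm V → Dl V}
    (hf : ∀ ω ∈ A, f ω ∈ LinearMap.range ω) (hs : f a + f b + ∑ ω ∈ C, f ω = 0)
    (hf0 : ∀ ω ∈ A, f ω ≠ 0) {x : V} (hxa : a x = f a) (hxb : b x = f b)
    (hle : LinearMap.range a ≤ Ec S (f a + f b)) : False := by
  have hCA : ∀ ω ∈ C, ω ∈ A ∧ ω ≠ a ∧ ω ≠ b := by
    intro ω hω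
    rw [hC, Finset.mem_erase, Finset.mem_erase] at hω
    exact ⟨hω.2.2, hω.2.1, hω.1⟩
  have hAa := hA a ha
  have hAb := hA b hb
  have hcard : C.card + 2 = k := by
    have h1 : b ∈ A.erase a := Finset.mem_erase.2 ⟨Ne.symm hab, hb⟩
    have h2 := Finset.card_erase_add_one h1
    have h3 := Finset.card_erase_add_one ha
    rw [hC]
    omega
  set β := f a + f b with hβ
  have hβx : (a + b) x = β := by rw [LinearMap.add_apply, hxa, hxb]
  have hP : PP S β x := PP_of (Submodule.add_mem _ hAa.mem hAb.mem) hβx
  have hco : ∀ y, PP S β y → a (x + y) = 0 := fun y hy =>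
    (coset he hS hAa hAb hP hle (by rw [hxa, hxb]) (by rw [hxb]; exact hf0 b hb) hy).1
  obtain ⟨y, hy⟩ := (ih C (fun ω hω => hA ω (hCA ω hω).1) (by omega)).solve he (S := S)
    (fun ω hω => (hA ω (hCA ω hω).1).mem) f fun ω hω => hf ω (hCA ω hω).1
  set σ : Fm V := ∑ ω ∈ C, ω with hσ
  have hσR : σ ∈ R S := Submodule.sum_mem _ fun ω hω => (hA ω (hCA ω hω).1).mem
  have hσa : ∀ u, σ u = ∑ ω ∈ C, ω u := fun u => by rw [hσ, LinearMap.sum_apply]
  have hσy : σ y = β := by
    rw [hσa, Finset.sum_congr rfl hy]
    exact (eo hs).symm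
  have hle2 : LinearMap.range a ≤ LinearMap.range σ := by
    apply range_le he hAa.mem hσR
    intro d hd
    have h1 := hco y (PP_of hσR hσy)
    have h2 := hco (y + d) (PP_of hσR (by rw [map_add, hd, add_zero, hσy]))
    rw [← add_assoc, map_add, h1, zero_add] at h2
    exact h2
  obtain ⟨u, hu⟩ := hle2 (hf a ha)
  have haC : a ∉ C := fun h => (hCA a h).2.1 rfl
  have h3 := ih (insert a C) (by
    intro ω hω
    rcases Finset.mem_insert.1 hω with rfl | hω
    · exact hAa
    · exact hA ω (hCA ω hω).1) (by
    rw [Finset.card_insert_of_notMem haC]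
    omega) (fun ω => if ω = a then f a else ω u) (by
    intro ω hω
    by_cases h : ω = a
    · rw [if_pos h, h]
      exact hf a ha
    · rw [if_neg h]
      exact ⟨u, rfl⟩) (by
    rw [Finset.sum_insert haC, if_pos rfl, Finset.sum_congr rfl (g := fun ω => ω u), ← hσa, hu,
      ZModModule.add_self]
    intro ω hω
    rw [if_neg]
    rintro rfl
    exact haC hω) a (Finset.mem_insert_self _ _)
  rw [if_pos rfl] at h3
  exact hf0 a ha h3

/-- **The images of the atoms are independent.** -/
theorem ind_all [Finite V] (he : S.e = 0) (hS : Emb S) (hD : ND S) :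
    ∀ A : Finset (Fm V), (∀ ω ∈ A, Atm S ω) → Ind A := by
  classical
  have key : ∀ (k : ℕ) (A : Finset (Fm V)), (∀ ω ∈ A, Atm S ω) → A.card = k → Ind A := by
    intro k
    induction k using Nat.strong_induction_on with
    | _ k ih0 =>
      intro A hA hk f hf hs ω0 hω0
      have ih : ∀ A : Finset (Fm V), (∀ ω ∈ A, Atm S ω) → A.card < k → Ind A :=
        fun A hA hlt => ih0 _ hlt A hA rfl
      by_contra h0
      -- all `f ω` are nonzero
      have hf0 : ∀ ω ∈ A, f ω ≠ 0 := by
        intro ω hω h1
        have hne : ω0 ≠ ω := by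
          rintro rfl
          exact h0 h1
        have h2 := ih (A.erase ω) (fun ω' hω' => hA _ (Finset.mem_of_mem_erase hω')) (by
          have := Finset.card_erase_add_one hω
          omega) f (fun ω' hω' => hf _ (Finset.mem_of_mem_erase hω')) (by
          rw [← hs, ← Finset.add_sum_erase A f hω, h1, zero_add]) ω0
          (Finset.mem_erase.2 ⟨hne, hω0⟩)
        exact h0 h2
      -- a second element
      obtain ⟨b, hb, hb0⟩ : ∃ b ∈ A, b ≠ ω0 := by
        by_contra hn
        push Not at hn
        have e : A = {ω0} := Finset.eq_singleton_iff_unique_mem.2 ⟨hω0, hn⟩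
        rw [e, Finset.sum_singleton] at hs
        exact h0 hs
      set a := ω0 with haa
      have hab : a ≠ b := Ne.symm hb0
      have hAa := hA a hω0
      have hAb := hA b hb
      set C := (A.erase a).erase b with hC
      have hb' : b ∈ A.erase a := Finset.mem_erase.2 ⟨hb0, hb⟩
      have hs' : f a + f b + ∑ ω ∈ C, f ω = 0 := by
        rw [add_assoc, hC, Finset.add_sum_erase _ f hb', Finset.add_sum_erase _ f hω0, hs]
      have hcard : C.card + 2 = k := by
        have h2 := Finset.card_erase_add_one hb'
        have h3 := Finset.card_erase_add_one hω0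
        rw [hC]
        omega
      have hCA : ∀ ω ∈ C, ω ∈ A ∧ ω ≠ a ∧ ω ≠ b := by
        intro ω hω
        rw [hC, Finset.mem_erase, Finset.mem_erase] at hω
        exact ⟨hω.2.2, hω.2.1, hω.1⟩
      have hβ0 : f a + f b ≠ 0 := by
        intro h1
        have h2 : f a = f b := eo h1
        exact hab (hAa.eq_of he hAb (hf0 a hω0) (hf a hω0) (by rw [h2]; exact hf b hb))
      have hne : C.Nonempty := by
        rw [Finset.nonempty_iff_ne_empty]
        intro h1
        rw [h1, Finset.sum_empty, add_zero] at hs'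
        exact hβ0 hs'
      obtain ⟨x, hx⟩ := (pair_ind he hAa hAb hab).solve he (S := S) (by
        intro ω hω
        rcases Finset.mem_insert.1 hω with rfl | hω
        · exact hAa.mem
        · rw [Finset.mem_singleton] at hω
          rw [hω]
          exact hAb.mem) f (by
        intro ω hω
        rcases Finset.mem_insert.1 hω with rfl | hω
        · exact hf _ hω0
        · rw [Finset.mem_singleton] at hω
          rw [hω]
          exact hf b hb)
      have hxa := hx a (by simp)
      have hxb := hx b (by simp)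
      -- three atoms with a dependency
      by_cases h3 : C.card = 1
      · obtain ⟨c, hc⟩ := Finset.card_eq_one.1 h3
        have hcC : c ∈ C := by rw [hc]; exact Finset.mem_singleton_self _
        obtain ⟨hcA, hca, hcb⟩ := hCA c hcC
        rw [hc, Finset.sum_singleton] at hs'
        obtain ⟨z, hz⟩ := hf c hcA
        have h4 : a x + b x = c z := by rw [hxa, hxb, hz]; exact eo hs'
        exact no_triple he hS hD hAa hAb (hA c hcA) hab (Ne.symm hca) (Ne.symm hcb) h4
          (by rw [hxa]; exact hf0 a hω0) (by rw [hxb]; exact hf0 b hb)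
          (by rw [hz]; exact hf0 c hcA)
      have hk4 : 4 ≤ k := by
        have := Finset.card_pos.2 hne
        omega
      obtain ⟨ω, W, hω1, hω2⟩ := exists_atom_le he hS hD
        (Submodule.add_mem _ hAa.mem hAb.mem : a + b ∈ R S) hβ0
        ⟨x, by rw [LinearMap.add_apply, hxa, hxb]⟩
      have hor : ω = a ∨ ω = b := by
        by_contra hn
        push Not at hn
        obtain ⟨u, hu⟩ := W.exists_ne
        obtain ⟨q, hq⟩ := hω2 ⟨u, rfl⟩
        have hq' : a q + b q = ω u := hq
        have h5 := ih ({ω, a, b} : Finset (Fm V)) (by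
          intro τ hτ
          simp only [Finset.mem_insert, Finset.mem_singleton] at hτ
          rcases hτ with rfl | rfl | rfl
          · exact W
          · exact hAa
          · exact hAb) (lt_of_le_of_lt Finset.card_le_three (by omega))
          (fun τ => if τ = ω then ω u else τ q) (by
          intro τ _
          by_cases h : τ = ω
          · rw [if_pos h, h]
            exact ⟨u, rfl⟩
          · rw [if_neg h]
            exact ⟨q, rfl⟩) (by
          rw [Finset.sum_insert (by
            simp only [Finset.mem_insert, Finset.mem_singleton]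
            push Not
            exact hn), Finset.sum_pair hab, if_pos rfl, if_neg (Ne.symm hn.1),
            if_neg (Ne.symm hn.2), hq', ZModModule.add_self]) ω (Finset.mem_insert_self _ _)
        rw [if_pos rfl] at h5
        exact hu h5
      rcases hor with h6 | h6
      · rw [h6] at hω1
        exact caseK he hS ih hA hω0 hb hC hab hk hf hs' hf0 hxa hxb hω1
      · rw [h6] at hω1
        rw [add_comm (f a)] at hω1 hs'
        exact caseK he hS ih hA hb hω0 (by rw [hC, Finset.erase_right_comm]) (Ne.symm hab) hk hf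
          hs' hf0 hxb hxa hω1
  intro A hA
  exact key _ A hA rfl

/-- **Theorem D**, product form: there are finitely many forms in `R S` such that the pairs
killed by all of them are the commuting pairs, and `V` is the product of the quotients by their
radicals. -/
theorem thmD [Finite V] (he : S.e = 0) (hS : Emb S) (hD : ND S) :
    ∃ A : Finset (Fm V), (∀ ω ∈ A, Atm S ω) ∧ (∀ x v, C S x v ↔ ∀ ω ∈ A, ω x v = 0) ∧
      ∀ f : Fm V → V, ∃ x, ∀ ω ∈ A, ω x = ω (f ω) := by
  classical
  have hfin : Module.Finite (ZMod 2) V := Module.Finite.of_finite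
  have hfF : Finite (Fm V) := Module.finite_of_finite (ZMod 2)
  have := Fintype.ofFinite (Fm V)
  refine ⟨Finset.univ.filter fun ω => Atm S ω, ?_, ?_, ?_⟩
  · intro ω hω
    exact (Finset.mem_filter.1 hω).2
  · intro x v
    constructor
    · intro h ω hω
      exact (Finset.mem_filter.1 hω).2.mem x v h
    · intro h
      have h1 := kill_of_atoms he hS hD (x := x) (v := v) fun ω W =>
        h ω (Finset.mem_filter.2 ⟨Finset.mem_univ _, W⟩)
      have h2 : S.q x v = S.q 0 0 := hS x v 0 0 fun ρ hρ => by
        rw [h1 ρ hρ, map_zero]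
      rw [S.q_zero] at h2
      exact h2
  · intro f
    exact (ind_all he hS hD _ fun ω hω => (Finset.mem_filter.1 hω).2).solve he (S := S)
      (fun ω hω => (Finset.mem_filter.1 hω).2.mem) (fun ω => ω (f ω)) fun ω _ => ⟨_, rfl⟩

/-- **Theorem D**: without one-dimensional minimal closed subspaces there is an element of rank
one, unless everything commutes. -/
theorem rank_one [Finite V] (he : S.e = 0) (hS : Emb S) (hD : ND S) (hn : ∃ x v, ¬ C S x v) :
    ∃ x, (∃ v, ¬ C S x v) ∧ ∀ v w, C S x v ∨ C S x w ∨ C S x (v + w) := by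
  classical
  obtain ⟨A, h1, h2, h3⟩ := thmD he hS hD
  obtain ⟨x0, v0, h4⟩ := hn
  rw [h2] at h4
  push Not at h4
  obtain ⟨ω, hω, h5⟩ := h4
  obtain ⟨x, hx⟩ := h3 fun τ => if τ = ω then x0 else 0
  have hx1 : ω x = ω x0 := by
    rw [hx ω hω, if_pos rfl]
  have hx2 : ∀ τ ∈ A, τ ≠ ω → τ x = 0 := by
    intro τ hτ hne
    rw [hx τ hτ, if_neg hne, map_zero]
  have key : ∀ v, ω x v = 0 → C S x v := by
    intro v hv
    rw [h2]
    intro τ hτ
    by_cases h : τ = ω
    · rw [h, hv]
    · rw [hx2 τ hτ h, LinearMap.zero_apply]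
  refine ⟨x, ⟨v0, ?_⟩, ?_⟩
  · intro hc
    apply h5
    rw [← hx1]
    exact (h1 ω hω).mem x v0 hc
  · intro v w
    rcases z2 (ω x v) with h | h
    · exact Or.inl (key v h)
    rcases z2 (ω x w) with h' | h'
    · exact Or.inr (Or.inl (key w h'))
    · refine Or.inr (Or.inr (key _ ?_))
      rw [map_add, h, h']
      decide

end Pool.Agent.ETSC
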